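import Pool.Agent.H919R3.Grp.NotFS
import Pool.Agent.H919R3.Grp.B1
import Pool.Agent.H919R3.L2.Compare

/-!
A torsion-free, finitely generated, residually finite group `G` with positive first `ℓ²`-Betti
number and with `b₁(H) - b₁⁽²⁾(H) ≤ 1` for all subgroups `H` of finite index, which is neither
free nor a hyperbolic surface group. The definitions are in `Pool.Agent.H919R3.Stmt.Defs`.
-/

set_option autoImplicit false

namespace Pool.Agent.Results.MP_a85771_al.BSFreeProduct

open Pool.Agent.H919R3.L2 Pool.Agent.H919R3.Grp Pool.Agent.H919R3.Stmt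

theorem result : ∃ (G : Type) (_ : Group G),
    -- torsion-free
    (∀ g : G, g ≠ 1 → ∀ n : ℕ, 0 < n → g ^ n ≠ 1) ∧
    -- finitely generated
    Group.FG G ∧
    -- residually finite
    (∀ g : G, g ≠ 1 → ∃ N : Subgroup G, N.FiniteIndex ∧ g ∉ N) ∧
    -- the first `ℓ²`-Betti number is positive
    (∀ S : Finset G, Subgroup.closure (S : Set G) = ⊤ → 0 < l2Betti S) ∧
    -- the gap is bounded by `1` on the subgroups of finite index
    (∀ H : Subgroup G, H.FiniteIndex → Group.FG H ∧
      ∀ S : Finset H, Subgroup.closure (S : Set H) = ⊤ → (bettiOne H : ℝ) - l2Betti S ≤ 1) ∧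
    -- `G` is not free and not a hyperbolic surface group
    ¬ IsFreeGroup G ∧ ¬ IsHypSurface G := by
  refine ⟨GG, inferInstance, ?_, GG_fg, GG_resFin, ?_, ?_, not_free, not_surface⟩
  · intro g hg n hn h
    exact hg (GG_torsionFree g n hn h)
  · intro S hS
    have hr : (MonoidHom.id GG).range = ⊤ := MonoidHom.range_eq_top.2 Function.surjective_id
    have h1 := GG_lower (MonoidHom.id GG) Function.injective_id S (by rw [hr]; infer_instance) hS
    rw [hr, Subgroup.index_top, Nat.cast_one] at h1
    have h4 := b1l2_le S
    linarith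
  · intro H hH
    have hfg := GG_fg
    refine ⟨inferInstance, ?_⟩
    intro S hS
    have hr : H.subtype.range = H := H.range_subtype
    have h1 := GG_lower H.subtype H.subtype_injective S (by rw [hr]; exact hH) hS
    rw [hr] at h1
    classical
    have hfin : Finite (GG ⧸ H) := inferInstance
    have := Fintype.ofFinite (GG ⧸ H)
    have h2 := bettiOne_le H xG aG tG GG_closure GG_rel
    have h3 : (bettiOne H : ℝ) ≤ (H.index : ℝ) + 1 := by exact_mod_cast h2
    have h4 := b1l2_le S
    linarith

end Pool.Agent.Results.MP_a85771_al.BSFreeProduct
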